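import Pool.Agent.Helper14.TH7.StD

/-!
# Project TH (levels `2·7^n`), module Stp: the operators on symbols and their rows
-/

set_option autoImplicit false

namespace Pool.Agent.Helper1.TH7

open Pool.Agent.Helper14.TH7
open Pool.Agent.Helper84.S7
open Pool.Agent.Helper4.S7 (Tm mulL sclL Gd)
open Pool.Agent.Helper76.TH7 (rYH edgeH HPlA7)
open Pool.Agent.Helper14.CV (Homog EqC act Tl)
open Pool.Agent.Helper93.TLH (HTy SymH)

/-- Sum of two matrices of lists. -/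
private def ad3 (A B : Fin 3 → Fin 3 → List Tm) (i f : Fin 3) : List Tm := A i f ++ B i f

/-- `n` times a matrix of lists. -/
private def sm3 (n : ℤ) (A : Fin 3 → Fin 3 → List Tm) (i f : Fin 3) : List Tm := sclL n (A i f)

/-- All entries of a matrix of lists are good. -/
private def GG (A : Fin 3 → Fin 3 → List Tm) : Prop := ∀ i f, ∀ t ∈ A i f, Gd t

/-- The operator `Φ` preserves symbols and has the rows `A`. -/
private def Rw (r s : ℕ) (Φ : (ℤ → ℤ → ZMod 7) → (ℤ → ℤ → ZMod 7)) (A : Fin 3 → Fin 3 → List Tm) : Prop :=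
  GG A ∧ ∀ G, SymH 7 r (s + 1) G → SymH 7 r (s + 1) (Φ G) ∧
    ∀ i, (pfH (Φ G) i : Fn7 (7 ^ r) (7 ^ s)) = ∑ f : Fin 3, opL (A i f) (pfH G f)

private lemma gg_id (c : ℤ) : GG (id3 c) := by
  intro i f t ht
  unfold id3 at ht
  split_ifs at ht
  · rw [List.mem_singleton] at ht
    subst ht
    exact ⟨by norm_num, by norm_num⟩
  · simp at ht

private lemma gg_ad {A B : Fin 3 → Fin 3 → List Tm} (hA : GG A) (hB : GG B) : GG (ad3 A B) := by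
  intro i f t ht
  unfold ad3 at ht
  rcases List.mem_append.1 ht with h | h
  · exact hA i f t h
  · exact hB i f t h

private lemma gg_sm (n : ℤ) {A : Fin 3 → Fin 3 → List Tm} (hA : GG A) : GG (sm3 n A) := by
  intro i f t ht
  unfold sm3 sclL at ht
  obtain ⟨u, hu, rfl⟩ := List.mem_map.1 ht
  exact hA i f u hu

private lemma gg_mm (hp : S7Opm) {A B : Fin 3 → Fin 3 → List Tm} (hA : GG A) (hB : GG B) : GG (mm3 A B) := by
  intro i f t ht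
  unfold mm3 at ht
  rcases List.mem_append.1 ht with h | h
  · rcases List.mem_append.1 h with h | h
    · exact ((hp 0 0).1 _ _ (hA i 0) (hB 0 f)).1 t h
    · exact ((hp 0 0).1 _ _ (hA i 1) (hB 1 f)).1 t h
  · exact ((hp 0 0).1 _ _ (hA i 2) (hB 2 f)).1 t h

section

variable {r s : ℕ}

private lemma pf_add (G H : ℤ → ℤ → ZMod 7) (i : Fin 3) :
    (pfH (G + H) i : Fn7 (7 ^ r) (7 ^ s)) = pfH G i + pfH H i := by
  funext x y
  simp only [pfH, edgeH, Pi.add_apply]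
  ring

private lemma pf_smul (n : ℤ) (G : ℤ → ℤ → ZMod 7) (i : Fin 3) :
    (pfH (n • G) i : Fn7 (7 ^ r) (7 ^ s)) = ((n : ℤ) : ZMod 7) • pfH G i := by
  funext x y
  simp only [pfH, edgeH, Pi.smul_apply, smul_eq_mul, zsmul_eq_mul]
  ring

private lemma rw_ad (hp : S7Opm) {Φ Ψ : (ℤ → ℤ → ZMod 7) → (ℤ → ℤ → ZMod 7)}
    {A B : Fin 3 → Fin 3 → List Tm} (hA : Rw r s Φ A) (hB : Rw r s Ψ B) :
    Rw r s (fun G => Φ G + Ψ G) (ad3 A B) := by
  refine ⟨gg_ad hA.1 hB.1, fun G hG => ?_⟩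
  obtain ⟨a1, a2⟩ := hA.2 G hG
  obtain ⟨b1, b2⟩ := hB.2 G hG
  refine ⟨SymH.add a1 b1, fun i => ?_⟩
  rw [pf_add, a2, b2]
  simp only [ad3, (hp r s).2.2.1, LinearMap.add_apply, Finset.sum_add_distrib]

private lemma rw_sm (hp : S7Opm) (n : ℤ) {Φ : (ℤ → ℤ → ZMod 7) → (ℤ → ℤ → ZMod 7)}
    {A : Fin 3 → Fin 3 → List Tm} (hA : Rw r s Φ A) :
    Rw r s (fun G => n • Φ G) (sm3 n A) := by
  refine ⟨gg_sm n hA.1, fun G hG => ?_⟩
  obtain ⟨a1, a2⟩ := hA.2 G hG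
  refine ⟨SymH.smul n a1, fun i => ?_⟩
  rw [pf_smul, a2]
  simp only [sm3, (hp r s).2.1, LinearMap.smul_apply, Finset.smul_sum]

private lemma rw_mm (hp : S7Opm) {Φ Ψ : (ℤ → ℤ → ZMod 7) → (ℤ → ℤ → ZMod 7)}
    {A B : Fin 3 → Fin 3 → List Tm} (hA : Rw r s Φ A) (hB : Rw r s Ψ B) :
    Rw r s (fun G => Φ (Ψ G)) (mm3 A B) := by
  refine ⟨gg_mm hp hA.1 hB.1, fun G hG => ?_⟩
  obtain ⟨b1, b2⟩ := hB.2 G hG
  obtain ⟨a1, a2⟩ := hA.2 _ b1
  refine ⟨a1, fun i => ?_⟩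
  have hmul : ∀ g f : Fin 3, (opL (mulL (A i g) (B g f)) : Module.End (ZMod 7) (Fn7 (7 ^ r) (7 ^ s))) =
      opL (A i g) * opL (B g f) := fun g f => ((hp r s).1 _ _ (hA.1 i g) (hB.1 g f)).2
  rw [a2, Fin.sum_univ_three, b2, b2, b2]
  simp only [Fin.sum_univ_three, mm3, (hp r s).2.2.1, hmul, LinearMap.add_apply, Module.End.mul_apply,
    map_add]
  abel

private lemma op_one (F : Fn7 (7 ^ r) (7 ^ s)) : op7 1 0 0 1 F = F := by
  funext x y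
  show F _ _ = F x y
  simp

private lemma rw_id (c : ℤ) : Rw r s (fun G => c • G) (id3 c) := by
  refine ⟨gg_id c, fun G hG => ⟨SymH.smul c hG, fun i => ?_⟩⟩
  rw [pf_smul]
  have h1 : ∀ f, (opL (id3 c f f) : Module.End (ZMod 7) (Fn7 (7 ^ r) (7 ^ s))) (pfH G f) =
      ((c : ℤ) : ZMod 7) • pfH G f := by
    intro f
    rw [show id3 c f f = [(c, 1, 0, 0, 1)] from if_pos rfl]
    simp only [opL, List.map_cons, List.map_nil, List.sum_cons, List.sum_nil, add_zero,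
      LinearMap.smul_apply, op_one]
  have h2 : ∀ f g, f ≠ g → (opL (id3 c f g) : Module.End (ZMod 7) (Fn7 (7 ^ r) (7 ^ s))) (pfH G g) = 0 := by
    intro f g hfg
    rw [show id3 c f g = [] from if_neg hfg]
    rfl
  rw [Finset.sum_eq_single i (fun g _ hg => h2 i g (Ne.symm hg)) (fun h => absurd (Finset.mem_univ i) h), h1]

private lemma pf_zero (H : ℤ → ℤ → ZMod 7) : (pfH H 0 : Fn7 (7 ^ r) (7 ^ s)) 0 0 = H 1 0 - H 0 1 := by
  have hY : rYH 0 (0 : ZMod (7 ^ r)) (0 : ZMod (7 ^ s)) = 0 := by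
    unfold rYH
    simp
  unfold pfH edgeH
  rw [hY]
  simp [e3]

end

theorem hStp (hb : THkB) (h3 : THk 3 T3H) (h5 : THk 5 T5H) (h11 : THk 11 T11H) (h13 : THk 13 T13H)
    (h17 : THk 17 T17H) (h19 : THk 19 T19H) (h23 : THk 23 T23H) (h29 : THk 29 T29H) (h37 : THk 37 T37H)
    (ho : S7Opm) (hc : TCeG) (ha : HPlA7) : TStp := by
  intro r s G hG
  have _ := ha
  have hl : ∀ (l : ℕ) (T : Fin 3 → Fin 3 → List Tm), l.Prime → l ≠ 7 → l ≠ 2 → THk l T → GG T →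
      Rw r s (Tl l (7 ^ r)) T := fun l T hp h7 h2 hT hg => ⟨hg, fun G hG =>
    ⟨(hb (ZMod 7) _ r (s + 1) l G hp h7 h2 hG).1, hT r s G hG⟩⟩
  have r3 := hl 3 T3H (by norm_num) (by norm_num) (by norm_num) h3 (fun i f => (hc.1 i f).1)
  have r5 := hl 5 T5H (by norm_num) (by norm_num) (by norm_num) h5 (fun i f => (hc.1 i f).2.1)
  have r11 := hl 11 T11H (by norm_num) (by norm_num) (by norm_num) h11 (fun i f => (hc.1 i f).2.2.1)
  have r13 := hl 13 T13H (by norm_num) (by norm_num) (by norm_num) h13 (fun i f => (hc.1 i f).2.2.2.1)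
  have r17 := hl 17 T17H (by norm_num) (by norm_num) (by norm_num) h17 (fun i f => (hc.1 i f).2.2.2.2.1)
  have r19 := hl 19 T19H (by norm_num) (by norm_num) (by norm_num) h19
    (fun i f => (hc.1 i f).2.2.2.2.2.1)
  have r23 := hl 23 T23H (by norm_num) (by norm_num) (by norm_num) h23
    (fun i f => (hc.1 i f).2.2.2.2.2.2.1)
  have r29 := hl 29 T29H (by norm_num) (by norm_num) (by norm_num) h29
    (fun i f => (hc.1 i f).2.2.2.2.2.2.2.1)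
  have r37 := hl 37 T37H (by norm_num) (by norm_num) (by norm_num) h37
    (fun i f => (hc.1 i f).2.2.2.2.2.2.2.2)
  have rU : Rw r s (UoH (7 ^ r)) ULH :=
    rw_ad ho (rw_ad ho (rw_ad ho (rw_ad ho (rw_ad ho (rw_id (r := r) (s := s) 3) (rw_sm ho 3 r11))
      (rw_sm ho 5 r23)) (rw_sm ho 5 r29)) (rw_sm ho 5 r37)) (rw_sm ho 6 (rw_mm ho r3 r3))
  have rTa : Rw r s (fun G => Tl 3 (7 ^ r) G + (3 : ℤ) • Tl 5 (7 ^ r) G + (3 : ℤ) • Tl 13 (7 ^ r) G) TaH :=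
    rw_ad ho (rw_ad ho r3 (rw_sm ho 3 r5)) (rw_sm ho 3 r13)
  have rTb : Rw r s (fun G => (6 : ℤ) • Tl 5 (7 ^ r) G + (4 : ℤ) • Tl 13 (7 ^ r) G +
      (2 : ℤ) • Tl 17 (7 ^ r) G + (4 : ℤ) • Tl 19 (7 ^ r) G) TbH :=
    rw_ad ho (rw_ad ho (rw_ad ho (rw_sm ho 6 r5) (rw_sm ho 4 r13)) (rw_sm ho 2 r17)) (rw_sm ho 4 r19)
  have rV : Rw r s (VoH (7 ^ r)) VLH :=
    rw_ad ho (rw_ad ho (rw_ad ho (rw_ad ho (rw_ad ho (rw_sm ho 5 r11) (rw_sm ho 4 r23))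
      (rw_sm ho 5 r29)) r37) (rw_mm ho r3 rTa)) (rw_mm ho r5 rTb)
  refine ⟨rU.2 G hG, rV.2 G hG, fun c => ?_, fun H => pf_zero H⟩
  have q0 := (rw_id (r := r) (s := s) 1).2 G hG
  have q1 := (rw_ad ho (rw_id (r := r) (s := s) 2) (rw_sm ho 3 r3)).2 G hG
  have q2 := (rw_ad ho (rw_ad ho (rw_id (r := r) (s := s) 4) (rw_sm ho 2 r3)) (rw_sm ho 5 r5)).2 G hG
  have q3 := (rw_ad ho (rw_ad ho (rw_ad ho (rw_ad ho (rw_ad ho (rw_id (r := r) (s := s) 5)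
    (rw_sm ho 3 r3)) (rw_sm ho 3 r5)) (rw_sm ho 4 r11)) r13) (rw_sm ho 2 r17)).2 G hG
  have q4 := (rw_ad ho (rw_ad ho (rw_ad ho (rw_sm ho 3 r3) (rw_sm ho 5 r13)) (rw_sm ho 2 r17))
    (rw_sm ho 5 (rw_mm ho r3 r5))).2 G hG
  have q5 := (rw_ad ho (rw_ad ho (rw_ad ho (rw_ad ho (rw_ad ho (rw_ad ho (rw_ad ho (rw_ad ho
    (rw_ad ho (rw_id (r := r) (s := s) 6) r5) (rw_sm ho 3 r13)) (rw_sm ho 4 r17)) r19)
    (rw_sm ho 2 r23)) (rw_sm ho 2 r29)) (rw_sm ho 2 r37)) (rw_sm ho 4 (rw_mm ho r3 r3)))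
    (rw_sm ho 4 (rw_mm ho r3 r5))).2 G hG
  fin_cases c
  · have h := q0.2 0
    simp only [one_smul] at h
    exact h
  · exact q1.2 0
  · exact q2.2 0
  · exact q3.2 0
  · exact q4.2 0
  · exact q5.2 0

end Pool.Agent.Helper1.TH7
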